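import Mathlib

/-!
The conductors of the Dirichlet characters modulo `q` are large on average.
-/

set_option autoImplicit false

open Finset

namespace Pool.Agent.TH243.CYC

/-- at most `φ(d)` of the characters modulo `q` have conductor dividing `d` -/
theorem card_cond_le (q d : ℕ) [NeZero q] (hd : d ∣ q) :
    ((univ : Finset (DirichletCharacter ℂ q)).filter (fun χ => χ.conductor ∣ d)).card ≤
      Nat.totient d := by
  classical
  have hd0 : d ≠ 0 := fun h => NeZero.ne q (by rw [h] at hd; exact zero_dvd_iff.mp hd)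
  have : NeZero d := ⟨hd0⟩
  have hsub : (univ : Finset (DirichletCharacter ℂ q)).filter (fun χ => χ.conductor ∣ d) ⊆
      (univ : Finset (DirichletCharacter ℂ d)).image (DirichletCharacter.changeLevel hd) := by
    intro χ hχ
    rw [mem_filter] at hχ
    rw [mem_image]
    refine ⟨DirichletCharacter.changeLevel hχ.2 χ.primitiveCharacter, mem_univ _, ?_⟩
    rw [← DirichletCharacter.changeLevel_trans]
    exact DirichletCharacter.changeLevel_primitiveCharacter χ
  refine (card_le_card hsub).trans (card_image_le.trans (le_of_eq ?_))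
  rw [card_univ, ← Nat.card_eq_fintype_card,
    DirichletCharacter.card_eq_totient_of_hasEnoughRootsOfUnity ℂ d]

theorem log_cond_nat (q c : ℕ) (hq : q ≠ 0) (hc : c ≠ 0) (hd : c ∣ q) :
    Real.log q - Real.log c =
      ∑ m ∈ q.divisors, (if c ∣ q / m then ArithmeticFunction.vonMangoldt m else 0) := by
  obtain ⟨e, he⟩ := hd
  have he0 : e ≠ 0 := by
    rintro rfl
    exact hq (by rw [he, mul_zero])
  have h1 : Real.log q - Real.log c = Real.log e := by
    have : (q : ℝ) = (c : ℝ) * e := by exact_mod_cast he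
    rw [this, Real.log_mul (by exact_mod_cast hc) (by exact_mod_cast he0)]
    ring
  rw [h1, ← ArithmeticFunction.vonMangoldt_sum, ← sum_filter]
  refine sum_congr ?_ (fun _ _ => rfl)
  ext m
  simp only [Nat.mem_divisors, mem_filter]
  constructor
  · rintro ⟨h2, h3⟩
    obtain ⟨k, hk⟩ := h2
    have hm0 : 0 < m := by
      rcases Nat.eq_zero_or_pos m with h | h
      · subst h; simp at hk; exact absurd hk he0
      · exact h
    have hq2 : q = (c * k) * m := by
      rw [he, hk]; ring
    have hqm : q / m = c * k := by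
      rw [hq2]
      exact Nat.mul_div_cancel _ hm0
    refine ⟨⟨⟨c * k, by rw [mul_comm m]; exact hq2⟩, hq⟩, ?_⟩
    rw [hqm]
    exact dvd_mul_right _ _
  · rintro ⟨⟨h2, -⟩, h4⟩
    refine ⟨?_, he0⟩
    obtain ⟨j, hj⟩ := h2
    have hm0 : 0 < m := by
      rcases Nat.eq_zero_or_pos m with h | h
      · subst h; simp at hj; exact absurd hj hq
      · exact h
    have hqm : q / m = j := by
      rw [hj]
      exact Nat.mul_div_cancel_left _ hm0
    rw [hqm] at h4
    obtain ⟨i, hi⟩ := h4
    refine ⟨i, ?_⟩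
    have h5 : c * e = c * (m * i) := by
      rw [← he, hj, hi]; ring
    exact Nat.eq_of_mul_eq_mul_left (Nat.pos_of_ne_zero hc) h5

theorem log_cond (q : ℕ) [NeZero q] (χ : DirichletCharacter ℂ q) :
    Real.log q - Real.log χ.conductor =
      ∑ m ∈ q.divisors, (if χ.conductor ∣ q / m then ArithmeticFunction.vonMangoldt m else 0) :=
  log_cond_nat q χ.conductor (NeZero.ne q) χ.conductor_ne_zero χ.conductor_dvd_level

theorem sum_log_cond (q : ℕ) [NeZero q] :
    ∑ χ : DirichletCharacter ℂ q, (Real.log q - Real.log χ.conductor) ≤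
      (Nat.totient q : ℝ) * ∑ m ∈ q.divisors, ArithmeticFunction.vonMangoldt m / Nat.totient m := by
  classical
  have hq : q ≠ 0 := NeZero.ne q
  calc ∑ χ : DirichletCharacter ℂ q, (Real.log q - Real.log χ.conductor)
      = ∑ m ∈ q.divisors, ∑ χ : DirichletCharacter ℂ q,
          (if χ.conductor ∣ q / m then ArithmeticFunction.vonMangoldt m else 0) := by
        rw [sum_comm]
        exact sum_congr rfl fun χ _ => log_cond q χ
    _ ≤ ∑ m ∈ q.divisors, (Nat.totient q : ℝ) *
          (ArithmeticFunction.vonMangoldt m / Nat.totient m) := by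
        refine sum_le_sum fun m hm => ?_
        rw [Nat.mem_divisors] at hm
        have hm0 : 0 < m := Nat.pos_of_dvd_of_pos hm.1 (Nat.pos_of_ne_zero hq)
        have hφm : (0 : ℝ) < Nat.totient m := by exact_mod_cast Nat.totient_pos.mpr hm0
        rw [← sum_filter, sum_const, nsmul_eq_mul]
        have hd : q / m ∣ q := Nat.div_dvd_of_dvd hm.1
        have h1 := card_cond_le q (q / m) hd
        have h2 : Nat.totient m * Nat.totient (q / m) ≤ Nat.totient q := by
          have := Nat.totient_super_multiplicative m (q / m)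
          rwa [Nat.mul_div_cancel' hm.1] at this
        have h3 : (((univ : Finset (DirichletCharacter ℂ q)).filter
            (fun χ => χ.conductor ∣ q / m)).card : ℝ) ≤ (Nat.totient q : ℝ) / Nat.totient m := by
          rw [le_div_iff₀ hφm]
          have h4 : ((Nat.totient (q / m) : ℕ) : ℝ) * Nat.totient m ≤ Nat.totient q := by
            rw [mul_comm]; exact_mod_cast h2
          refine le_trans (mul_le_mul_of_nonneg_right ?_ hφm.le) h4
          exact_mod_cast h1
        calc _ ≤ (Nat.totient q : ℝ) / Nat.totient m * ArithmeticFunction.vonMangoldt m :=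
              mul_le_mul_of_nonneg_right h3 ArithmeticFunction.vonMangoldt_nonneg
          _ = _ := by ring
    _ = _ := by rw [mul_sum]

theorem half_le_totient {m : ℕ} (h : IsPrimePow m) : (m : ℝ) ≤ 2 * Nat.totient m := by
  obtain ⟨p, k, hp, hk, rfl⟩ := h
  have hp' : p.Prime := hp.nat_prime
  rw [Nat.totient_prime_pow hp' hk]
  obtain ⟨j, rfl⟩ : ∃ j, k = j + 1 := ⟨k - 1, by omega⟩
  have h2 := hp'.two_le
  have h3 : p ^ (j + 1) ≤ 2 * (p ^ (j + 1 - 1) * (p - 1)) := by
    rw [Nat.add_sub_cancel, pow_succ]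
    have h4 : p ≤ 2 * (p - 1) := by omega
    calc p ^ j * p ≤ p ^ j * (2 * (p - 1)) := Nat.mul_le_mul_left _ h4
      _ = _ := by ring
  exact_mod_cast h3

theorem sum_lam_phi (ε : ℝ) (hε : 0 < ε) : ∃ C : ℝ, 0 < C ∧ ∀ q : ℕ, 1 ≤ q →
    ∑ m ∈ q.divisors, ArithmeticFunction.vonMangoldt m / Nat.totient m ≤ ε * Real.log q + C := by
  obtain ⟨K, hK⟩ := exists_nat_gt (2 / ε)
  have hK0 : (0 : ℝ) < K := lt_trans (by positivity) hK
  have hK2 : 2 / (K : ℝ) ≤ ε := by
    rw [div_le_iff₀ hK0]
    rw [div_lt_iff₀ hε] at hK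
    linarith
  set C : ℝ := ∑ m ∈ range (K + 1), ArithmeticFunction.vonMangoldt m with hC
  have hC0 : 0 ≤ C := sum_nonneg fun _ _ => ArithmeticFunction.vonMangoldt_nonneg
  refine ⟨C + 1, by linarith, fun q hq => ?_⟩
  have hpt : ∀ m ∈ q.divisors, ArithmeticFunction.vonMangoldt m / (Nat.totient m : ℝ) ≤
      (if m ∈ range (K + 1) then ArithmeticFunction.vonMangoldt m else 0) +
        2 / (K : ℝ) * ArithmeticFunction.vonMangoldt m := by
    intro m hm
    rw [Nat.mem_divisors] at hm
    have hm0 : 0 < m := Nat.pos_of_dvd_of_pos hm.1 hq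
    have hΛ := ArithmeticFunction.vonMangoldt_nonneg (n := m)
    have hφ1 : (1 : ℝ) ≤ Nat.totient m := by exact_mod_cast Nat.totient_pos.mpr hm0
    have hφ0 : (0 : ℝ) < Nat.totient m := by linarith
    by_cases hp : IsPrimePow m
    · split_ifs with h
      · have h1 : ArithmeticFunction.vonMangoldt m / (Nat.totient m : ℝ) ≤
            ArithmeticFunction.vonMangoldt m := div_le_self hΛ hφ1
        have h2 : 0 ≤ 2 / (K : ℝ) * ArithmeticFunction.vonMangoldt m := by positivity
        linarith
      · rw [zero_add]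
        rw [mem_range, not_lt] at h
        have h3 : (K : ℝ) ≤ m := by exact_mod_cast (by omega : K ≤ m)
        have h4 := half_le_totient hp
        have h5 : 1 / (Nat.totient m : ℝ) ≤ 2 / K := by
          rw [div_le_div_iff₀ hφ0 hK0]
          linarith
        calc _ = 1 / (Nat.totient m : ℝ) * ArithmeticFunction.vonMangoldt m := by ring
          _ ≤ _ := mul_le_mul_of_nonneg_right h5 hΛ
    · have : ArithmeticFunction.vonMangoldt m = 0 :=
        ArithmeticFunction.vonMangoldt_eq_zero_iff.mpr hp
      rw [this]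
      simp
  calc _ ≤ ∑ m ∈ q.divisors, ((if m ∈ range (K + 1) then ArithmeticFunction.vonMangoldt m else 0) +
        2 / (K : ℝ) * ArithmeticFunction.vonMangoldt m) := sum_le_sum hpt
    _ = (∑ m ∈ q.divisors, (if m ∈ range (K + 1) then ArithmeticFunction.vonMangoldt m else 0)) +
        2 / (K : ℝ) * Real.log q := by
        rw [sum_add_distrib, ← mul_sum, ArithmeticFunction.vonMangoldt_sum]
    _ ≤ C + 2 / (K : ℝ) * Real.log q := by
        refine add_le_add ?_ le_rfl
        rw [← sum_filter, hC]
        refine sum_le_sum_of_subset_of_nonneg ?_ fun _ _ _ => ArithmeticFunction.vonMangoldt_nonneg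
        intro m hm
        exact (mem_filter.mp hm).2
    _ ≤ _ := by
        have hl : 0 ≤ Real.log q := Real.log_nonneg (by exact_mod_cast hq)
        have := mul_le_mul_of_nonneg_right hK2 hl
        linarith

/-- the conductors are large on average -/
theorem cond_large (ε : ℝ) (hε : 0 < ε) : ∃ C : ℝ, 0 < C ∧ ∀ (q : ℕ) [NeZero q],
    ∑ χ : DirichletCharacter ℂ q, (Real.log q - Real.log χ.conductor) ≤
      (ε * Real.log q + C) * (Nat.totient q : ℝ) := by
  obtain ⟨C, hC, h⟩ := sum_lam_phi ε hε
  refine ⟨C, hC, fun q _ => ?_⟩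
  have h1 := h q NeZero.one_le
  have h2 := mul_le_mul_of_nonneg_left h1 (Nat.cast_nonneg (α := ℝ) (Nat.totient q))
  refine (sum_log_cond q).trans (h2.trans (le_of_eq ?_))
  ring

end Pool.Agent.TH243.CYC
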