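import Pool.Agent.TH243.CYC.Final

/-!
The zeros of all Dirichlet L-functions modulo one `q`, in terms of `DirichletCharacter.LFunction`.
-/

open Complex Filter Topology Set MeasureTheory
open H370 (zset mult NN Nd Ns)

set_option autoImplicit false

namespace Pool.Agent.TH243.CYC

open H385

theorem LF_eq {q : ℕ} [NeZero q] (χ : DirichletCharacter ℂ q) :
    LF q χ = DirichletCharacter.LFunction χ := by
  unfold LF
  rw [dif_neg (NeZero.ne q)]

theorem counts {q : ℕ} [NeZero q] (χ : DirichletCharacter ℂ q) (T1 T2 : ℝ) (h : 0 ≤ T1) :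
    NN (DirichletCharacter.LFunction χ) T1 T2 = NN (LP χ) T1 T2 ∧
    Ns (DirichletCharacter.LFunction χ) T1 T2 = Ns (LP χ) T1 T2 ∧
    Nd (DirichletCharacter.LFunction χ) T1 T2 = Nd (LP χ) T1 T2 := by
  have h1 := LF_counts q (NeZero.pos q) χ T1 T2 h
  rw [LF_eq] at h1
  exact h1

theorem finite_zset {q : ℕ} [NeZero q] (χ : DirichletCharacter ℂ q) (T1 T2 : ℝ) (h : 1 ≤ T1) :
    (zset (DirichletCharacter.LFunction χ) T1 T2).Finite := by
  obtain ⟨A, hA, hgood⟩ := good_LF
  have h1 := LF_zset_eq q (NeZero.pos q) χ T1 T2 (by linarith)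
  rw [LF_eq] at h1
  rw [h1]
  have hc : (1 : ℝ) ≤ (χ.conductor : ℝ) := by
    exact_mod_cast Nat.one_le_iff_ne_zero.mpr χ.conductor_ne_zero
  exact zset_finite_U hA hc (hgood q χ (NeZero.pos q)) T1 T2 h

/-- the final form in terms of `DirichletCharacter.LFunction` -/
theorem cyc_L : ∃ C0 : ℝ, 1 ≤ C0 ∧ ∀ (q : ℕ) [NeZero q] (T : ℝ),
      C0 * (1 + Real.sqrt (Real.log q)) ≤ T → 1 ≤ T ∧
      (0.6725 * ∑ χ : DirichletCharacter ℂ q,
          (NN (DirichletCharacter.LFunction χ) T (2 * T) : ℝ) ≤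
        ∑ χ : DirichletCharacter ℂ q, (Ns (DirichletCharacter.LFunction χ) T (2 * T) : ℝ)) ∧
      (0.83625 * ∑ χ : DirichletCharacter ℂ q,
          (NN (DirichletCharacter.LFunction χ) T (2 * T) : ℝ) ≤
        ∑ χ : DirichletCharacter ℂ q, (Nd (DirichletCharacter.LFunction χ) T (2 * T) : ℝ)) ∧
      (0.99 * (T / (2 * Real.pi) * Real.log (q * T)) * (Nat.totient q : ℝ) ≤
        ∑ χ : DirichletCharacter ℂ q, (NN (DirichletCharacter.LFunction χ) T (2 * T) : ℝ)) ∧
      2 * Nat.totient q < 3 * {χ : DirichletCharacter ℂ q |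
        T * Real.log (q * T) / 120 ≤ (Ns (DirichletCharacter.LFunction χ) T (2 * T) : ℝ)}.ncard ∧
      2 * Nat.totient q < 3 * {χ : DirichletCharacter ℂ q |
        T * Real.log (q * T) / 13 ≤ (Nd (DirichletCharacter.LFunction χ) T (2 * T) : ℝ)}.ncard := by
  classical
  obtain ⟨C0, hC0, h⟩ := cyc_all
  refine ⟨C0, hC0, ?_⟩
  intro q _ T hT
  have hT1 : 1 ≤ T := by
    refine le_trans ?_ hT
    have hs := Real.sqrt_nonneg (Real.log q)
    calc (1 : ℝ) = 1 * 1 := by norm_num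
      _ ≤ C0 * (1 + Real.sqrt (Real.log q)) := mul_le_mul hC0 (by linarith) zero_le_one (by linarith)
  have hc : ∀ χ : DirichletCharacter ℂ q, _ := fun χ => counts χ T (2 * T) (by linarith)
  obtain ⟨a1, a2, a3, a4⟩ := h q T hT
  have key : ∀ P : DirichletCharacter ℂ q → Prop,
      (∀ S : Finset (DirichletCharacter ℂ q), (Nat.totient q : ℝ) ≤ 3 * (S.card : ℝ) →
        ∃ χ ∈ S, P χ) → 2 * Nat.totient q < 3 * {χ | P χ}.ncard := by
    intro P hP
    by_contra hcon
    push Not at hcon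
    have e1 : {χ | P χ}.ncard = (Finset.univ.filter P).card := by
      rw [← Set.ncard_coe_finset]
      congr 1
      ext χ
      simp
    have e2 : (Finset.univ.filter P).card + (Finset.univ.filter fun χ => ¬ P χ).card =
        Nat.totient q := by
      rw [Finset.card_filter_add_card_filter_not, card_univ_chars]
    obtain ⟨χ, h1, h2⟩ := hP (Finset.univ.filter fun χ => ¬ P χ) (by
      have : Nat.totient q ≤ 3 * (Finset.univ.filter fun χ => ¬ P χ).card := by omega
      exact_mod_cast this)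
    exact (Finset.mem_filter.mp h1).2 h2
  refine ⟨hT1, ?_, ?_, ?_, ?_, ?_⟩
  · simp only [fun χ => (hc χ).1, fun χ => (hc χ).2.1]
    exact a1
  · simp only [fun χ => (hc χ).1, fun χ => (hc χ).2.2]
    exact a2
  · simp only [fun χ => (hc χ).1]
    exact a3
  · refine key _ fun S hS => ?_
    obtain ⟨χ, h1, h2⟩ := (a4 S hS).1
    exact ⟨χ, h1, by rw [(hc χ).2.1]; exact h2⟩
  · refine key _ fun S hS => ?_
    obtain ⟨χ, h1, h2⟩ := (a4 S hS).2
    exact ⟨χ, h1, by rw [(hc χ).2.2]; exact h2⟩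

end Pool.Agent.TH243.CYC
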