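import Pool.Agent.TH243.CYC.Cond
import Pool.Agent.H385R3.Cyc6
import Pool.Agent.H385R3.CycNum
import Pool.Agent.H385R2.FamAbs
import Pool.Agent.H385R2.NLow
import Pool.Agent.H385R2.DirU
import Pool.Agent.H385R2.Prim
import Pool.Agent.H385R2.WinE

/-!
The zeros of all Dirichlet L-functions modulo one `q`: final assembly of the starting project CYC.
-/

open Complex Filter Topology Set MeasureTheory
open H370 (zset mult NN Nd Ns)

set_option autoImplicit false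
set_option maxHeartbeats 4000000

namespace Pool.Agent.TH243.CYC

open H385

/-- the tail is small for large `N` -/
theorem exists_tail (u : ℝ) : ∃ N : ℕ, Tl N u ≤ 1 := by
  have h : Tendsto (fun N : ℕ => Tl N u) atTop (𝓝 0) := by
    have h0 : ∑' _n : ℕ, (0 : ℝ) = 0 := tsum_zero
    rw [← h0]
    unfold Tl
    refine tendsto_tsum_of_dominated_convergence (half_summable u) ?_ ?_
    · intro n
      refine tendsto_const_nhds.congr' ?_
      filter_upwards [eventually_ge_atTop n] with N hN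
      rw [if_neg (not_lt.mpr hN)]
    · filter_upwards with N n
      have hn : 0 ≤ ArithmeticFunction.vonMangoldt n / Real.sqrt n *
          Real.exp (-(u - Real.log n) ^ 2 / 4) :=
        mul_nonneg (div_nonneg ArithmeticFunction.vonMangoldt_nonneg (Real.sqrt_nonneg _))
          (Real.exp_pos _).le
      split_ifs
      · rw [Real.norm_of_nonneg hn]
      · rw [norm_zero]; exact hn
  have h1 : ∀ᶠ N : ℕ in atTop, Tl N u < 1 := h (Iio_mem_nhds one_pos)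
  obtain ⟨N, hN⟩ := h1.exists
  exact ⟨N, hN.le⟩

/-- parameters -/
theorem cyc_param (β ℒ T κ : ℝ) (hβ1 : β < 1) (hℒ : 1 ≤ ℒ) (hκ : κ = 4 * Real.sqrt ℒ)
    (hT : T ≤ Real.exp ℒ) : 3 ≤ κ ∧ κ ^ 2 = 16 * ℒ ∧ T ≤ Real.exp (κ ^ 2 / 2) ∧
      T ≤ Real.exp (κ ^ 2) ∧ ℒ ^ 2 * Real.exp (β * ℒ - κ ^ 2 / 2) ≤ Real.exp (-(β * ℒ)) ∧
      ℒ ^ 2 * Real.exp (-κ ^ 2 / 2) ≤ 1 := by
  have hs : 1 ≤ Real.sqrt ℒ := by rw [Real.one_le_sqrt]; exact hℒ
  have hκ2 : κ ^ 2 = 16 * ℒ := by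
    rw [hκ, mul_pow, Real.sq_sqrt (by linarith)]; ring
  have hq : ℒ ^ 2 ≤ Real.exp (2 * ℒ) := by
    have h1 : ℒ ≤ Real.exp ℒ := by
      have := Real.add_one_le_exp ℒ
      linarith
    have h2 : Real.exp (2 * ℒ) = Real.exp ℒ ^ 2 := by rw [← Real.exp_nat_mul]; norm_num
    rw [h2]
    exact pow_le_pow_left₀ (by linarith) h1 2
  refine ⟨by rw [hκ]; linarith, hκ2, ?_, ?_, ?_, ?_⟩
  · refine hT.trans (Real.exp_le_exp.mpr ?_)
    rw [hκ2]; linarith
  · refine hT.trans (Real.exp_le_exp.mpr ?_)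
    rw [hκ2]; linarith
  · refine (mul_le_mul_of_nonneg_right hq (Real.exp_pos _).le).trans ?_
    rw [← Real.exp_add]
    refine Real.exp_le_exp.mpr ?_
    rw [hκ2]
    have : β * ℒ ≤ 1 * ℒ := mul_le_mul_of_nonneg_right hβ1.le (by linarith)
    linarith
  · refine (mul_le_mul_of_nonneg_right hq (Real.exp_pos _).le).trans ?_
    rw [← Real.exp_add, ← Real.exp_zero]
    refine Real.exp_le_exp.mpr ?_
    have e : -κ ^ 2 / 2 = -(8 * ℒ) := by
      rw [show -κ ^ 2 / 2 = -(κ ^ 2) / 2 by ring, hκ2]; ring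
    rw [e]; linarith

theorem cyc_aux (cr T' L Sc K : ℝ) (h : cr ≠ 0) :
    (1 / cr) * (T' * (cr * L - Sc) - cr * K) = T' * (L - Sc / cr) - K := by
  field_simp

/-- the L-function of the primitive character inducing `χ` -/
noncomputable def LP {q : ℕ} (χ : DirichletCharacter ℂ q) : ℂ → ℂ :=
  LF χ.conductor χ.primitiveCharacter

/-- mean square over a set `S` of at least `θ φ(q)` characters modulo `q` -/
theorem cyc_int_sub : ∃ C : ℝ, 0 < C ∧ ∀ (δ θ : ℝ) (q : ℕ) [NeZero q]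
    (S : Finset (DirichletCharacter ℂ q)) (N : ℕ) (T κ u : ℝ), 0 < δ → 0 < θ → 0 < S.card →
    θ * (Nat.totient q : ℝ) ≤ (S.card : ℝ) →
    1 ≤ κ → 1 ≤ T → T ≤ Real.exp (κ ^ 2) → 0 ≤ u → Tl N u ≤ 1 →
    ∫ t : ℝ, ∑ χ ∈ S, (1 / (S.card : ℝ)) *
      ‖∑' n : ℕ, aa q χ n * ((Real.sqrt n : ℂ)⁻¹ * bt T u t (Real.log n))‖ ^ 2 ≤
      1 / θ * YC δ C q T κ u := by
  obtain ⟨C1, hC1, h1⟩ := cyc_ms
  obtain ⟨C2, hC2, h2⟩ := wt_sq_int
  refine ⟨C1 + C2, by positivity, ?_⟩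
  intro δ θ q _ S N T κ u hδ hθ hS0 hS hκ hT hTκ hu hN
  have hT0 : 0 ≤ T := by linarith
  have hφ : (0 : ℝ) < Nat.totient q := by exact_mod_cast Nat.totient_pos.mpr (NeZero.pos q)
  have hc0 : (0 : ℝ) < (S.card : ℝ) := by exact_mod_cast hS0
  obtain ⟨a1, a2⟩ := h1 q N T κ u hκ hT hTκ hu
  obtain ⟨b1, b2⟩ := h2 T hT0
  have hq0 : (0 : ℝ) < q := by exact_mod_cast NeZero.pos q
  have hθi : 0 ≤ 1 / θ := by positivity
  have hpt : ∀ t : ℝ, ∑ χ ∈ S, (1 / (S.card : ℝ)) *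
      ‖∑' n : ℕ, aa q χ n * ((Real.sqrt n : ℂ)⁻¹ * bt T u t (Real.log n))‖ ^ 2 ≤
      1 / θ * ((1 + δ) * ((1 / (Nat.totient q : ℝ)) * ∑ χ : DirichletCharacter ℂ q,
        ‖∑ n ∈ Finset.Icc 1 N, FamLS.aq (bn T u t) q n * χ (n : ZMod q)‖ ^ 2) +
      (1 + 1 / δ) * (wt T t ^ 2 * (Gq q u + 1) ^ 2)) := by
    intro t
    have h3 := cyc_point δ hδ q N T u t hT0 hN
    refine le_trans ?_ (mul_le_mul_of_nonneg_left h3 hθi)
    rw [Finset.mul_sum]
    refine le_trans (Finset.sum_le_sum fun χ _ => ?_)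
      (Finset.sum_le_sum_of_subset_of_nonneg (Finset.subset_univ S) fun χ _ _ => by positivity)
    rw [← mul_assoc]
    refine mul_le_mul_of_nonneg_right ?_ (by positivity)
    rw [one_div_mul_one_div]
    exact one_div_le_one_div_of_le (by positivity) hS
  calc _ ≤ ∫ t : ℝ, 1 / θ * ((1 + δ) * ((1 / (Nat.totient q : ℝ)) *
        ∑ χ : DirichletCharacter ℂ q,
        ‖∑ n ∈ Finset.Icc 1 N, FamLS.aq (bn T u t) q n * χ (n : ZMod q)‖ ^ 2) +
      (1 + 1 / δ) * (wt T t ^ 2 * (Gq q u + 1) ^ 2)) := by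
        refine integral_mono_of_nonneg ?_ ?_ ?_
        · exact Filter.Eventually.of_forall (fun t => Finset.sum_nonneg fun χ _ => by positivity)
        · exact (((a1.const_mul _).const_mul _).add ((b1.mul_const _).const_mul _)).const_mul _
        · exact Filter.Eventually.of_forall hpt
    _ = 1 / θ * ((1 + δ) * ((1 / (Nat.totient q : ℝ)) * ∫ t : ℝ, ∑ χ : DirichletCharacter ℂ q,
        ‖∑ n ∈ Finset.Icc 1 N, FamLS.aq (bn T u t) q n * χ (n : ZMod q)‖ ^ 2) +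
      (1 + 1 / δ) * ((∫ t : ℝ, wt T t ^ 2) * (Gq q u + 1) ^ 2)) := by
        rw [integral_const_mul, integral_add ((a1.const_mul _).const_mul _)
          ((b1.mul_const _).const_mul _),
          integral_const_mul, integral_const_mul, integral_const_mul, integral_mul_const]
    _ ≤ 1 / θ * ((1 + δ) * (T / (2 * Real.pi) * S1 u + C1 * κ * (u + 1) +
        C1 * (u + 1) ^ 3 * Real.exp u / q) + (1 + 1 / δ) * ((T + C2) * (Gq q u + 1) ^ 2)) := by
        refine mul_le_mul_of_nonneg_left (add_le_add ?_ ?_) hθi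
        · refine mul_le_mul_of_nonneg_left ?_ (by positivity)
          calc _ ≤ (1 / (Nat.totient q : ℝ)) * (Nat.totient q * (T / (2 * Real.pi) * S1 u +
                C1 * κ * (u + 1) + C1 * (u + 1) ^ 3 * Real.exp u / q)) :=
                mul_le_mul_of_nonneg_left a2 (by positivity)
            _ = _ := by field_simp
        · refine mul_le_mul_of_nonneg_left ?_ (by positivity)
          exact mul_le_mul_of_nonneg_right b2 (sq_nonneg _)
    _ ≤ _ := by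
        unfold YC
        have e1 : C1 * κ * (u + 1) ≤ (C1 + C2) * κ * (u + 1) := by gcongr; linarith
        have e2 : C1 * (u + 1) ^ 3 * Real.exp u / q ≤ (C1 + C2) * (u + 1) ^ 3 * Real.exp u / q := by
          gcongr; linarith
        have e3 : (T + C2) * (Gq q u + 1) ^ 2 ≤ (T + (C1 + C2)) * (Gq q u + 1) ^ 2 := by
          gcongr; linarith
        have e4 : 0 ≤ 1 + δ := by positivity
        have e5 : 0 ≤ 1 + 1 / δ := by positivity
        refine mul_le_mul_of_nonneg_left (add_le_add (mul_le_mul_of_nonneg_left (by linarith) e4)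
          (mul_le_mul_of_nonneg_left e3 e5)) hθi

/-- the core estimate, for any set `S` of at least `θ φ(q)` characters modulo `q` -/
theorem cyc_core (γ β θ ε : ℝ) (h0 : 0 < γ) (hπ : γ < Real.pi) (hβ : 0 < β) (hβ1 : β < 1)
    (hθ : 0 < θ) (hθ1 : θ ≤ 1) (hε : 0 < ε) :
    ∃ C0 : ℝ, 1 ≤ C0 ∧ ∀ (q : ℕ) [NeZero q] (T : ℝ) (S : Finset (DirichletCharacter ℂ q)),
      C0 * (1 + Real.sqrt (Real.log q)) ≤ T → θ * (Nat.totient q : ℝ) ≤ (S.card : ℝ) →
      (∑ χ ∈ S, (2 * (NN (LP χ) T (2 * T) : ℝ) - (Ns (LP χ) T (2 * T) : ℝ)) ≤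
        (Rw γ 0 / β + 2 * β * (∫ α in (0 : ℝ)..1, α * Rw γ α) / θ + ε) *
        ∑ χ ∈ S, (NN (LP χ) T (2 * T) : ℝ)) ∧
      (∑ χ ∈ S, (3 * (NN (LP χ) T (2 * T) : ℝ) - 2 * (Nd (LP χ) T (2 * T) : ℝ)) ≤
        (Rw γ 0 / β + 2 * β * (∫ α in (0 : ℝ)..1, α * Rw γ α) / θ + ε) *
        ∑ χ ∈ S, (NN (LP χ) T (2 * T) : ℝ)) ∧
      (1 - ε) * (T / (2 * Real.pi) * Real.log (q * T)) * (S.card : ℝ) ≤
        ∑ χ ∈ S, (NN (LP χ) T (2 * T) : ℝ) := by
  classical
  obtain ⟨A, hA1, hgood⟩ := good_LF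
  obtain ⟨C1, hC1, hfam⟩ := fam_abstract γ h0 hπ A hA1
  obtain ⟨C1', hC1', hfam'⟩ := fam_abstract_d γ h0 hπ A hA1
  obtain ⟨C2, hC2, hlow⟩ := N_lower A hA1
  set J : ℝ := ∫ α in (0 : ℝ)..1, α * Rw γ α with hJ
  have hJ0 : 0 ≤ J := I1_nonneg γ h0 hπ
  have hR0 : 0 ≤ Rw γ 0 := Rw_nonneg γ h0 hπ 0
  set CC : ℝ := max C1 C1' with hCC
  have hCC0 : 0 < CC := lt_max_of_lt_left hC1
  obtain ⟨ε0, L0, hε0, hL0, hnum⟩ := cyc_num (Rw γ 0) (2 * β * J / θ) β ε CC (2 * C2)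
    hR0 (by positivity) hβ hε hCC0 (by positivity)
  -- one more requirement
  set ε1 : ℝ := min ε0 (min (ε / 2) (ε / (4 * (2 * Real.pi * (2 * C2) + 1)))) with hε1d
  have hε1 : 0 < ε1 := by positivity
  have hε10 : ε1 ≤ ε0 := min_le_left _ _
  have hε11 : ε1 ≤ ε / 2 := (min_le_right _ _).trans (min_le_left _ _)
  have hε12 : ε1 * (2 * Real.pi * (2 * C2)) ≤ ε / 4 := by
    have h1 : ε1 ≤ ε / (4 * (2 * Real.pi * (2 * C2) + 1)) :=
      (min_le_right _ _).trans (min_le_right _ _)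
    have hP : 0 < 2 * Real.pi * (2 * C2) := by positivity
    calc ε1 * (2 * Real.pi * (2 * C2)) ≤
        ε / (4 * (2 * Real.pi * (2 * C2) + 1)) * (2 * Real.pi * (2 * C2)) :=
          mul_le_mul_of_nonneg_right h1 hP.le
      _ = ε / 4 * ((2 * Real.pi * (2 * C2)) / (2 * Real.pi * (2 * C2) + 1)) := by field_simp
      _ ≤ ε / 4 * 1 := by
          refine mul_le_mul_of_nonneg_left ?_ (by positivity)
          rw [div_le_one (by positivity)]
          linarith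
      _ = ε / 4 := mul_one _
  set ε2 : ℝ := ε1 * θ with hε2d
  have hε2 : 0 < ε2 := by positivity
  obtain ⟨C5, hC5, hint⟩ := cyc_int_sub
  obtain ⟨δ, hδ, hδ1, hδ2⟩ : ∃ δ : ℝ, 0 < δ ∧ δ ≤ 1 ∧ 2 * β * J * δ ≤ ε2 / 4 := by
    refine ⟨min 1 (ε2 / 4 / (2 * β * J + 1)), lt_min one_pos (by positivity), min_le_left _ _, ?_⟩
    calc 2 * β * J * min 1 (ε2 / 4 / (2 * β * J + 1)) ≤
        (2 * β * J + 1) * (ε2 / 4 / (2 * β * J + 1)) := by
          gcongr
          · linarith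
          · exact min_le_right _ _
      _ = ε2 / 4 := by field_simp
  obtain ⟨L1, hL1, hpoint⟩ := YC_point β ε2 C5 hβ hβ1 hε2 hC5 δ hδ hδ1
  obtain ⟨L2, η2, hL2, hη2, hYint⟩ := YC_integral γ β ε2 C5 h0 hπ hβ hβ1 hε2 hC5 δ
    hδ hδ1 hδ2
  obtain ⟨C3, hC3, hcond3⟩ := cond_large (ε2 / 2) (by positivity)
  obtain ⟨C0, hC01, hheight⟩ := cyc_height (L0 + L1 + L2 + 1 / β + 2 * C3 / ε2 + 1 / ε1)
    (min (min ε1 η2) (1 / 8)) (by positivity)
  refine ⟨C0, hC01, ?_⟩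
  intro q _ T S hT hScard
  have hq1 : 1 ≤ q := NeZero.one_le
  have hqr : (1 : ℝ) ≤ q := by exact_mod_cast hq1
  have hq0 : (0 : ℝ) < q := by linarith
  obtain ⟨hℒ, hT1, hκT⟩ := hheight q T hq1 hT
  set ℒ : ℝ := Real.log (q * T) with hℒd
  set κ : ℝ := 4 * Real.sqrt ℒ with hκd
  have hβi : 0 < 1 / β := by positivity
  have hεi : 0 < 1 / ε1 := by positivity
  have hCi : 0 ≤ 2 * C3 / ε2 := by positivity
  have hℒL0 : L0 ≤ ℒ := by linarith
  have hℒ1 : 1 ≤ ℒ := hL0.trans hℒL0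
  have hℒL1 : L1 ≤ ℒ := by linarith
  have hℒL2 : L2 ≤ ℒ := by linarith
  have hℒC3 : 2 * C3 / ε2 ≤ ℒ := by linarith
  have hℒε : 1 ≤ ε1 * ℒ := by
    have : 1 / ε1 ≤ ℒ := by linarith
    rw [div_le_iff₀ hε1] at this
    linarith
  have hΛ1 : 1 ≤ β * ℒ := by
    have : 1 / β ≤ ℒ := by linarith
    rw [div_le_iff₀ hβ] at this
    linarith
  have hT0 : 0 < T := by linarith
  have hℒ0 : 0 < ℒ := by linarith
  have hTℒ : T ≤ Real.exp ℒ := by
    rw [hℒd, Real.exp_log (by positivity)]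
    exact le_mul_of_one_le_left hT0.le hqr
  obtain ⟨p1, p2, p3, p4, p5, p6⟩ := cyc_param β ℒ T κ hβ1 hℒ1 hκd hTℒ
  have hκ0 : 0 ≤ κ := by linarith
  have hκ1 : κ ≤ ε1 * T := hκT.trans (by
    refine mul_le_mul_of_nonneg_right ?_ hT0.le
    exact (min_le_left _ _).trans (min_le_left _ _))
  have hκ10 : κ ≤ ε0 * T := hκ1.trans (mul_le_mul_of_nonneg_right hε10 hT0.le)
  have hκ2 : κ ≤ η2 * T := hκT.trans (by
    refine mul_le_mul_of_nonneg_right ?_ hT0.le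
    exact (min_le_left _ _).trans (min_le_right _ _))
  have hκ8 : 8 * κ ≤ T := by
    have : κ ≤ 1 / 8 * T := hκT.trans (by
      refine mul_le_mul_of_nonneg_right ?_ hT0.le
      exact min_le_right _ _)
    linarith
  have hκT1 : κ ≤ T := by linarith
  have hφ0 : (0 : ℝ) < Nat.totient q := by exact_mod_cast Nat.totient_pos.mpr hq1
  have hS0 : 0 < S.card := by
    have : (0 : ℝ) < (S.card : ℝ) := lt_of_lt_of_le (by positivity) hScard
    exact_mod_cast this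
  set cr : ℝ := (S.card : ℝ) with hcr
  have hcr0' : 0 < cr := lt_of_lt_of_le (by positivity) hScard
  have hcr0 : 0 ≤ 1 / cr := div_nonneg zero_le_one hcr0'.le
  have hW : ∑ _χ ∈ S, (1 / cr) = 1 := by
    rw [Finset.sum_const, nsmul_eq_mul, ← hcr]
    field_simp
  obtain ⟨y1, y2, hy1, hy2, m2', m5'⟩ := hpoint q T κ hq1 hT1 hℒL1 hκ0 hκT1
  have m4' := hYint q T κ hq1 hT1 hℒL2 hκ0 hκ2
  set Y : ℝ → ℝ := fun u => 1 / θ * YC δ C5 q T κ u with hY
  have hθi : 0 ≤ 1 / θ := by positivity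
  have m2 : ∀ u ∈ Set.Icc 0 (β * ℒ), Y u ≤ T * (y1 / θ * (u + 1) + y2 / θ) := by
    intro u hu
    have h1 := mul_le_mul_of_nonneg_left (m2' u hu) hθi
    refine h1.trans (le_of_eq ?_)
    field_simp
  have m5 : Real.sqrt (y1 / θ) + Real.sqrt (y2 / θ) ≤ ε0 * ℒ := by
    rw [Real.sqrt_div hy1, Real.sqrt_div hy2, ← add_div, div_le_iff₀ (Real.sqrt_pos.mpr hθ)]
    refine m5'.trans ?_
    have h0θ : θ ^ 2 ≤ θ := by
      have := mul_le_mul_of_nonneg_left hθ1 hθ.le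
      rw [pow_two]
      linarith
    have h1 : θ ≤ Real.sqrt θ := Real.le_sqrt_of_sq_le h0θ
    calc ε2 * ℒ = ε1 * ℒ * θ := by rw [hε2d]; ring
      _ ≤ ε0 * ℒ * Real.sqrt θ := by gcongr
  have m4 : (2 / (Real.sqrt Real.pi * (β * ℒ))) *
        (∫ u in (0 : ℝ)..(β * ℒ), Rw γ (u / (β * ℒ)) * Y u) ≤
      T / (2 * Real.pi) * ℒ * (2 * β * J / θ + ε0) := by
    have e1 : (∫ u in (0 : ℝ)..(β * ℒ), Rw γ (u / (β * ℒ)) * Y u) =
        1 / θ * ∫ u in (0 : ℝ)..(β * ℒ), Rw γ (u / (β * ℒ)) * YC δ C5 q T κ u := by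
      rw [← intervalIntegral.integral_const_mul]
      refine intervalIntegral.integral_congr fun u _ => ?_
      simp only [hY]
      ring
    rw [e1]
    have h1 := mul_le_mul_of_nonneg_left m4' hθi
    calc _ = 1 / θ * ((2 / (Real.sqrt Real.pi * (β * ℒ))) *
          (∫ u in (0 : ℝ)..(β * ℒ), Rw γ (u / (β * ℒ)) * YC δ C5 q T κ u)) := by ring
      _ ≤ 1 / θ * (T / (2 * Real.pi) * ℒ * (2 * β * J + ε2)) := h1
      _ = T / (2 * Real.pi) * ℒ * (2 * β * J / θ + ε1) := by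
          rw [hε2d]; field_simp
      _ ≤ _ := by
          refine mul_le_mul_of_nonneg_left (by linarith) (by positivity)
  have m1 : ∀ u ∈ Set.Icc 0 (β * ℒ), ∫ t : ℝ, ∑ χ ∈ S, (1 / cr) *
      ‖∑' n : ℕ, aa q χ n * ((Real.sqrt n : ℂ)⁻¹ * bt T u t (Real.log n))‖ ^ 2 ≤ Y u := by
    intro u hu
    obtain ⟨N, hN⟩ := exists_tail u
    exact hint δ θ q S N T κ u hδ hθ hS0 hScard (by linarith) hT1 p4 hu.1 hN
  have m3 : IntervalIntegrable Y volume 0 (β * ℒ) :=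
    ((YC_cont _ _ _ _ _).const_mul _).intervalIntegrable _ _
  have hcond1 : ∀ χ : DirichletCharacter ℂ q, (1 : ℝ) ≤ (χ.conductor : ℝ) := fun χ => by
    exact_mod_cast Nat.one_le_iff_ne_zero.mpr χ.conductor_ne_zero
  have hcondq : ∀ χ : DirichletCharacter ℂ q, (χ.conductor : ℝ) ≤ q := fun χ => by
    exact_mod_cast Nat.le_of_dvd hq1 χ.conductor_dvd_level
  have hlogc : ∀ χ : DirichletCharacter ℂ q, Real.log ((χ.conductor : ℝ) * T) ≤ ℒ := by
    intro χ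
    rw [hℒd]
    refine Real.log_le_log ?_ (mul_le_mul_of_nonneg_right (hcondq χ) hT0.le)
    have := hcond1 χ
    positivity
  have hgd : ∀ χ : DirichletCharacter ℂ q, GoodU A χ.conductor (LP χ) (aa q χ) :=
    fun χ => hgood q χ hq1
  have hdata : ∀ χ ∈ S, 0 ≤ (1 / cr) ∧
      (1 : ℝ) ≤ (χ.conductor : ℝ) ∧ GoodU A (χ.conductor : ℝ) (LP χ) (aa q χ) ∧
      Real.log ((χ.conductor : ℝ) * T) ≤ ℒ := by
    intro χ _
    exact ⟨hcr0, hcond1 χ, hgd χ, hlogc χ⟩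
  have hy1' : 0 ≤ y1 / θ := by positivity
  have hy2' : 0 ≤ y2 / θ := by positivity
  have k1 := hfam S (fun _ => 1 / cr)
    (fun χ => (χ.conductor : ℝ)) (fun χ => LP χ) (fun χ => aa q χ) T κ (β * ℒ) ℒ (y1 / θ) (y2 / θ)
    Y hdata p1 hκ8 p3 hΛ1 hℒ1 p5 hy1' hy2' m1 m2 m3
  have k2 := hfam' S (fun _ => 1 / cr)
    (fun χ => (χ.conductor : ℝ)) (fun χ => LP χ) (fun χ => aa q χ) T κ (β * ℒ) ℒ (y1 / θ) (y2 / θ)
    Y hdata p1 hκ8 p3 hΛ1 hℒ1 p5 hy1' hy2' m1 m2 m3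
  set SN : ℝ := ∑ χ ∈ S, (1 / cr) * (NN (LP χ) T (2 * T) : ℝ) with hSN
  -- lower bound for the number of zeros
  have hNlow : T / (2 * Real.pi) * ℒ * (1 - ε1) - 2 * C2 * (T + κ * ℒ) ≤ SN := by
    have hpt : ∀ χ : DirichletCharacter ℂ q,
        T / (2 * Real.pi) * (ℒ - (Real.log q - Real.log χ.conductor)) -
          2 * C2 * (T + κ * ℒ) ≤
        (NN (LP χ) T (2 * T) : ℝ) := by
      intro χ
      have hc := hcond1 χ
      have hl := hlow χ.conductor (LP χ) (aa q χ) hc (hgd χ) T κ p1 hκ8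
      refine le_trans ?_ hl
      have e1 : Real.log ((χ.conductor : ℝ) * T) =
          ℒ - (Real.log q - Real.log χ.conductor) := by
        rw [hℒd, Real.log_mul (by linarith) (by linarith), Real.log_mul (by linarith) (by linarith)]
        ring
      have hn : 0 ≤ Real.log ((χ.conductor : ℝ) * T) := Real.log_nonneg (one_le_mul_of_one_le_of_one_le hc hT1)
      have a3 : T * Real.log ((χ.conductor : ℝ) * T) ^ 2 * Real.exp (-κ ^ 2 / 2) ≤ T := by
        have b1 : Real.log ((χ.conductor : ℝ) * T) ^ 2 ≤ ℒ ^ 2 :=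
          pow_le_pow_left₀ hn (hlogc χ) 2
        have b2 : Real.log ((χ.conductor : ℝ) * T) ^ 2 * Real.exp (-κ ^ 2 / 2) ≤ 1 :=
          (mul_le_mul_of_nonneg_right b1 (Real.exp_pos _).le).trans p6
        calc _ = T * (Real.log ((χ.conductor : ℝ) * T) ^ 2 * Real.exp (-κ ^ 2 / 2)) := by ring
          _ ≤ T * 1 := mul_le_mul_of_nonneg_left b2 hT0.le
          _ = T := mul_one T
      have a4 : κ * Real.log ((χ.conductor : ℝ) * T) ≤ κ * ℒ :=
        mul_le_mul_of_nonneg_left (hlogc χ) hκ0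
      have a5 : C2 * (T + κ * Real.log ((χ.conductor : ℝ) * T) +
          T * Real.log ((χ.conductor : ℝ) * T) ^ 2 * Real.exp (-κ ^ 2 / 2)) ≤
          2 * C2 * (T + κ * ℒ) := by
        have hκℒ : 0 ≤ κ * ℒ := by positivity
        calc _ ≤ C2 * (T + κ * ℒ + T) := mul_le_mul_of_nonneg_left (by linarith) hC2.le
          _ ≤ C2 * (2 * (T + κ * ℒ)) := mul_le_mul_of_nonneg_left (by linarith) hC2.le
          _ = _ := by ring
      rw [← e1]
      linarith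
    have hsum : ∑ χ ∈ S, (1 / cr) *
        (T / (2 * Real.pi) * (ℒ - (Real.log q - Real.log χ.conductor)) -
          2 * C2 * (T + κ * ℒ)) ≤ SN :=
      Finset.sum_le_sum fun χ _ => mul_le_mul_of_nonneg_left (hpt χ) hcr0
    have hcs := hcond3 q
    set Sc : ℝ := ∑ χ ∈ S, (Real.log q - Real.log χ.conductor) with hSc
    have hScle : Sc ≤ ∑ χ : DirichletCharacter ℂ q, (Real.log q - Real.log χ.conductor) := by
      refine Finset.sum_le_sum_of_subset_of_nonneg (Finset.subset_univ S) fun χ _ _ => ?_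
      have := Real.log_le_log (by have := hcond1 χ; linarith) (hcondq χ)
      linarith
    have e2 : ∑ χ ∈ S, (1 / cr) *
        (T / (2 * Real.pi) * (ℒ - (Real.log q - Real.log χ.conductor)) -
          2 * C2 * (T + κ * ℒ)) =
        T / (2 * Real.pi) * (ℒ - Sc / cr) - 2 * C2 * (T + κ * ℒ) := by
      rw [← Finset.mul_sum, Finset.sum_sub_distrib, ← Finset.mul_sum,
        Finset.sum_sub_distrib, ← hSc, Finset.sum_const, Finset.sum_const, nsmul_eq_mul,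
        nsmul_eq_mul, ← hcr]
      exact cyc_aux cr _ ℒ Sc _ hcr0'.ne'
    rw [e2] at hsum
    have hSc2 : Sc / cr ≤ ε1 * ℒ := by
      rw [div_le_iff₀ hcr0']
      have hlq : Real.log q ≤ ℒ := by
        rw [hℒd]
        exact Real.log_le_log hq0 (le_mul_of_one_le_right hq0.le hT1)
      have h3 : C3 ≤ ε2 / 2 * ℒ := by
        rw [div_le_iff₀ hε2] at hℒC3
        linarith
      have h4 : ε2 / 2 * Real.log q ≤ ε2 / 2 * ℒ := mul_le_mul_of_nonneg_left hlq (by positivity)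
      calc Sc ≤ (ε2 / 2 * Real.log q + C3) * (Nat.totient q : ℝ) := hScle.trans hcs
        _ ≤ (ε2 * ℒ) * (Nat.totient q : ℝ) :=
            mul_le_mul_of_nonneg_right (by linarith) hφ0.le
        _ = ε1 * ℒ * (θ * (Nat.totient q : ℝ)) := by rw [hε2d]; ring
        _ ≤ ε1 * ℒ * cr := mul_le_mul_of_nonneg_left hScard (by positivity)
    have h5 : T / (2 * Real.pi) * ℒ * (1 - ε1) ≤ T / (2 * Real.pi) * (ℒ - Sc / cr) := by
      have : T / (2 * Real.pi) * ℒ * (1 - ε1) = T / (2 * Real.pi) * (ℒ - ε1 * ℒ) := by ring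
      rw [this]
      exact mul_le_mul_of_nonneg_left (by linarith) (by positivity)
    linarith
  have hNlow0 : T / (2 * Real.pi) * ℒ * (1 - ε0) - 2 * C2 * (T + κ * ℒ) ≤ SN := by
    refine le_trans ?_ hNlow
    have : T / (2 * Real.pi) * ℒ * (1 - ε0) ≤ T / (2 * Real.pi) * ℒ * (1 - ε1) :=
      mul_le_mul_of_nonneg_left (by linarith) (by positivity)
    linarith
  have h3 : cr * SN = ∑ χ ∈ S, (NN (LP χ) T (2 * T) : ℝ) := by
    rw [hSN, ← Finset.mul_sum, ← mul_assoc, mul_one_div_cancel hcr0'.ne', one_mul]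
  have core : ∀ (D SM : ℝ), 0 < D → D ≤ CC →
      SM ≤ (∑ _χ ∈ S, (1 / cr)) * ℒ ^ 2 * Rw γ 0 * T /
          (2 * Real.pi * (β * ℒ)) +
        (2 / (Real.sqrt Real.pi * (β * ℒ))) *
          (∫ u in (0 : ℝ)..(β * ℒ), Rw γ (u / (β * ℒ)) * Y u) +
        D * ((∑ _χ ∈ S, (1 / cr)) *
          (ℒ ^ 2 * κ / (β * ℒ) + ℒ * T / (β * ℒ) + κ * ℒ) +
          Real.sqrt (∑ _χ ∈ S, (1 / cr)) * ℒ * T *
            (Real.sqrt (y1 / θ) + Real.sqrt (y2 / θ)) / (β * ℒ)) →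
      cr * SM ≤ (Rw γ 0 / β + 2 * β * J / θ + ε) *
        ∑ χ ∈ S, (NN (LP χ) T (2 * T) : ℝ) := by
    intro D SM hD hDC hSM
    rw [hW, Real.sqrt_one, one_mul, one_mul, one_mul] at hSM
    have h1 : SM ≤ (Rw γ 0 / β + 2 * β * J / θ + ε) * SN := by
      refine hnum T ℒ κ (Real.sqrt (y1 / θ) + Real.sqrt (y2 / θ)) _ SM _ hT0 hℒL0 hκ0 hκ10 m5 m4
        ?_ hNlow0
      refine hSM.trans ?_
      have hb : 0 ≤ (ℒ ^ 2 * κ / (β * ℒ) + ℒ * T / (β * ℒ) + κ * ℒ) +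
          ℒ * T * (Real.sqrt (y1 / θ) + Real.sqrt (y2 / θ)) / (β * ℒ) := by positivity
      have := mul_le_mul_of_nonneg_right hDC hb
      linarith
    calc cr * SM ≤ cr * ((Rw γ 0 / β + 2 * β * J / θ + ε) * SN) :=
          mul_le_mul_of_nonneg_left h1 hcr0'.le
      _ = (Rw γ 0 / β + 2 * β * J / θ + ε) * (cr * SN) := by ring
      _ = _ := by rw [h3]
  refine ⟨?_, ?_, ?_⟩
  · have := core C1 _ hC1 (le_max_left _ _) k1
    refine le_trans (le_of_eq ?_) this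
    rw [← Finset.mul_sum, ← mul_assoc, mul_one_div_cancel hcr0'.ne', one_mul]
  · have := core C1' _ hC1' (le_max_right _ _) k2
    refine le_trans (le_of_eq ?_) this
    rw [← Finset.mul_sum, ← mul_assoc, mul_one_div_cancel hcr0'.ne', one_mul]
  · rw [← h3, mul_comm cr SN]
    refine mul_le_mul_of_nonneg_right (le_trans ?_ hNlow) hcr0'.le
    have hTL : 0 ≤ T / (2 * Real.pi) * ℒ := by positivity
    have a1 : 2 * C2 * (T + κ * ℒ) ≤ ε1 * (2 * Real.pi * (2 * C2)) * 2 * (T / (2 * Real.pi) * ℒ) := by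
      have b1 : T ≤ ε1 * ℒ * T := by
        calc T = 1 * T := (one_mul T).symm
          _ ≤ _ := mul_le_mul_of_nonneg_right hℒε hT0.le
      have b2 : κ * ℒ ≤ ε1 * T * ℒ := mul_le_mul_of_nonneg_right hκ1 hℒ0.le
      have b3 : T + κ * ℒ ≤ 2 * (ε1 * T * ℒ) := by linarith
      calc 2 * C2 * (T + κ * ℒ) ≤ 2 * C2 * (2 * (ε1 * T * ℒ)) :=
            mul_le_mul_of_nonneg_left b3 (by positivity)
        _ = _ := by
            have := Real.pi_pos
            field_simp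
    have a2 : ε1 * (2 * Real.pi * (2 * C2)) * 2 * (T / (2 * Real.pi) * ℒ) ≤
        ε / 2 * (T / (2 * Real.pi) * ℒ) := mul_le_mul_of_nonneg_right (by linarith) hTL
    have a3 : ε1 * (T / (2 * Real.pi) * ℒ) ≤ ε / 2 * (T / (2 * Real.pi) * ℒ) :=
      mul_le_mul_of_nonneg_right hε11 hTL
    have a4 : T / (2 * Real.pi) * ℒ * (1 - ε1) =
        T / (2 * Real.pi) * ℒ - ε1 * (T / (2 * Real.pi) * ℒ) := by ring
    have a5 : (1 - ε) * (T / (2 * Real.pi) * ℒ) = T / (2 * Real.pi) * ℒ -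
        (ε / 2 * (T / (2 * Real.pi) * ℒ) + ε / 2 * (T / (2 * Real.pi) * ℒ)) := by ring
    rw [a4, a5]
    linarith

end Pool.Agent.TH243.CYC
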