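import Pool.Agent.TH243.CYC.Core

/-!
The zeros of all Dirichlet L-functions modulo one `q`: final forms.
-/

open Complex Filter Topology Set MeasureTheory
open H370 (zset mult NN Nd Ns)

set_option autoImplicit false
set_option maxHeartbeats 4000000

namespace Pool.Agent.TH243.CYC

open H385

/-- sets of at least `θ φ(q)` characters modulo `q`, given a numerical bound for the constant -/
theorem cyc_gen (γ θ c : ℝ) (h0 : 0 < γ) (hπ : γ < Real.pi) (hθ : 0 < θ) (hθ1 : θ ≤ 1)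
    (hc : Rw γ 0 + 2 * (∫ α in (0 : ℝ)..1, α * Rw γ α) / θ < c) :
    ∃ C0 : ℝ, 1 ≤ C0 ∧ ∀ (q : ℕ) [NeZero q] (T : ℝ) (S : Finset (DirichletCharacter ℂ q)),
      C0 * (1 + Real.sqrt (Real.log q)) ≤ T → θ * (Nat.totient q : ℝ) ≤ (S.card : ℝ) →
      ((2 - c) * ∑ χ ∈ S, (NN (LP χ) T (2 * T) : ℝ) ≤ ∑ χ ∈ S, (Ns (LP χ) T (2 * T) : ℝ)) ∧
      ((3 - c) / 2 * ∑ χ ∈ S, (NN (LP χ) T (2 * T) : ℝ) ≤
        ∑ χ ∈ S, (Nd (LP χ) T (2 * T) : ℝ)) ∧
      0.99 * (T / (2 * Real.pi) * Real.log (q * T)) * (S.card : ℝ) ≤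
        ∑ χ ∈ S, (NN (LP χ) T (2 * T) : ℝ) := by
  set R0 : ℝ := Rw γ 0 with hR0
  have hR0n : 0 ≤ R0 := Rw_nonneg γ h0 hπ 0
  set J : ℝ := ∫ α in (0 : ℝ)..1, α * Rw γ α with hJ
  have hJn : 0 ≤ J := I1_nonneg γ h0 hπ
  have hJθ : 0 ≤ 2 * J / θ := by positivity
  set e : ℝ := c - (R0 + 2 * J / θ) with he
  have he0 : 0 < e := by rw [he]; linarith
  -- choose β = 1 - s
  set s : ℝ := min (1 / 2) (e / (4 * R0 + 1)) with hs
  have hs0 : 0 < s := by positivity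
  have hs1 : s ≤ 1 / 2 := min_le_left _ _
  have hs2 : 4 * R0 * s ≤ e := by
    have h1 : s ≤ e / (4 * R0 + 1) := min_le_right _ _
    calc 4 * R0 * s ≤ 4 * R0 * (e / (4 * R0 + 1)) := mul_le_mul_of_nonneg_left h1 (by positivity)
      _ = e * (4 * R0 / (4 * R0 + 1)) := by ring
      _ ≤ e * 1 := by
        refine mul_le_mul_of_nonneg_left ?_ he0.le
        rw [div_le_one (by positivity)]; linarith
      _ = e := mul_one e
  set β' : ℝ := 1 - s with hβ'
  have hβ'0 : 0 < β' := by rw [hβ']; linarith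
  have hβ'1 : β' < 1 := by rw [hβ']; linarith
  have hβh : 1 / 2 ≤ β' := by rw [hβ']; linarith
  have e2 : R0 / β' ≤ R0 + e / 2 := by
    rw [div_le_iff₀ hβ'0]
    have h1 : (R0 + e / 2) * β' = R0 - R0 * s + e / 2 * β' := by rw [hβ']; ring
    have h2 : e / 2 * (1 / 2) ≤ e / 2 * β' := mul_le_mul_of_nonneg_left hβh (by linarith)
    rw [h1]
    linarith
  have e3 : 2 * β' * J / θ ≤ 2 * J / θ := by
    have : 2 * β' * J / θ = β' * (2 * J / θ) := by ring
    rw [this]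
    calc β' * (2 * J / θ) ≤ 1 * (2 * J / θ) := mul_le_mul_of_nonneg_right hβ'1.le hJθ
      _ = _ := one_mul _
  obtain ⟨C0, hC0, h⟩ := cyc_core γ β' θ (min (e / 2) (1 / 100)) h0 hπ hβ'0 hβ'1 hθ hθ1
    (lt_min (by positivity) (by norm_num))
  refine ⟨C0, hC0, ?_⟩
  intro q _ T S hT hS
  obtain ⟨b1, b2, b3⟩ := h q T S hT hS
  have hm1 : min (e / 2) (1 / 100) ≤ e / 2 := min_le_left _ _
  have hm2 : min (e / 2) (1 / 100) ≤ 1 / 100 := min_le_right _ _
  have hcc : R0 / β' + 2 * β' * J / θ + min (e / 2) (1 / 100) ≤ c := by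
    have : R0 + 2 * J / θ + e = c := by rw [he]; ring
    linarith
  set SN : ℝ := ∑ χ ∈ S, (NN (LP χ) T (2 * T) : ℝ) with hSN
  set SS : ℝ := ∑ χ ∈ S, (Ns (LP χ) T (2 * T) : ℝ) with hSS
  set SD : ℝ := ∑ χ ∈ S, (Nd (LP χ) T (2 * T) : ℝ) with hSD
  have hSN0 : 0 ≤ SN := Finset.sum_nonneg fun χ _ => Nat.cast_nonneg _
  rw [Finset.sum_sub_distrib, ← Finset.mul_sum, ← hSN, ← hSS] at b1
  rw [Finset.sum_sub_distrib, ← Finset.mul_sum, ← Finset.mul_sum, ← hSN, ← hSD] at b2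
  have c3 := mul_le_mul_of_nonneg_right hcc hSN0
  have c1 : 2 * SN - SS ≤ c * SN := le_trans b1 c3
  have c2 : 3 * SN - 2 * SD ≤ c * SN := le_trans b2 c3
  refine ⟨by linarith, by linarith, ?_⟩
  refine le_trans ?_ b3
  refine mul_le_mul_of_nonneg_right ?_ (Nat.cast_nonneg _)
  have hq1 : 1 ≤ q := NeZero.one_le
  have hqr : (1 : ℝ) ≤ q := by exact_mod_cast hq1
  have hT1 : 1 ≤ T := by
    refine le_trans ?_ hT
    have hs := Real.sqrt_nonneg (Real.log q)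
    calc (1 : ℝ) = 1 * 1 := by norm_num
      _ ≤ C0 * (1 + Real.sqrt (Real.log q)) := mul_le_mul hC0 (by linarith) zero_le_one (by linarith)
  have hl : 0 ≤ Real.log (q * T) := Real.log_nonneg (one_le_mul_of_one_le_of_one_le hqr hT1)
  have hX : 0 ≤ T / (2 * Real.pi) * Real.log (q * T) := by positivity
  refine mul_le_mul_of_nonneg_right ?_ hX
  have : (0.99 : ℝ) = 1 - 1 / 100 := by norm_num
  rw [this]
  linarith

/-- the constant for sets of at least one third of the characters -/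
theorem Rw_const_third :
    Rw (11 / 5) 0 + 2 * (∫ α in (0 : ℝ)..1, α * Rw (11 / 5) α) / (1 / 3) < 1.945 := by
  have h := Rw_const_closed (11 / 5) 1 6 (by norm_num)
  have e0 : Rw (11 / 5) 0 + 2 * (∫ α in (0 : ℝ)..1, α * Rw (11 / 5) α) / (1 / 3) =
      1 * Rw (11 / 5) 0 + 6 * ∫ α in (0 : ℝ)..1, α * Rw (11 / 5) α := by ring
  rw [e0, h]
  have hh : (11 / 5 : ℝ) / 2 = 11 / 10 := by norm_num
  have hS : Real.sin (11 / 5) = 2 * Real.sin (11 / 10) * Real.cos (11 / 10) := by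
    rw [← Real.sin_two_mul]; congr 1; norm_num
  have hC : Real.cos (11 / 5) = 1 - 2 * Real.sin (11 / 10) ^ 2 := by
    have : Real.cos (11 / 5) = Real.cos (2 * (11 / 10)) := by congr 1; norm_num
    rw [this, Real.cos_two_mul, Real.cos_sq']
    ring
  obtain ⟨hcos, hsin⟩ := WinC.trig_11
  rw [hh, hS, hC]
  set s := Real.sin (11 / 10) with hs
  set c := Real.cos (11 / 10) with hcc
  rw [abs_le] at hcos hsin
  have hs1 : 0.891206 ≤ s := by linarith [hsin.1]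
  have hspos : 0 < s := by linarith
  have hc1 : c ≤ 0.453598 := by linarith [hcos.2]
  have hs2 : s ≤ 0.891209 := by linarith [hsin.2]
  have hc0 : 0 ≤ c := by linarith [hcos.1]
  have hsc : s * c ≤ 0.891209 * 0.453598 := mul_le_mul hs2 hc1 hc0 (by norm_num)
  have hss : 0.891206 ^ 2 ≤ s ^ 2 := pow_le_pow_left₀ (by norm_num) hs1 2
  have e : (11 / 5 / (2 * s)) ^ 2 / 2 *
        (1 * (1 + 2 * s * c / (11 / 5)) + 6 * ((1 - (1 - 2 * s ^ 2) - 1) / (11 / 5) ^ 2 +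
          2 * s * c / (11 / 5) ^ 3)) =
      ((11 / 5) ^ 2 + (2 * (11 / 5) + 12 / (11 / 5)) * (s * c) + 12 * s ^ 2 - 6) / (8 * s ^ 2) := by
    field_simp
    ring
  rw [e, div_lt_iff₀ (by positivity)]
  have : (2 * (11 / 5) + 12 / (11 / 5)) * (s * c) ≤
    (2 * (11 / 5) + 12 / (11 / 5)) * (0.891209 * 0.453598 : ℝ) :=
    mul_le_mul_of_nonneg_left hsc (by norm_num)
  norm_num at this hss ⊢
  linarith

theorem card_univ_chars (q : ℕ) [NeZero q] :
    (Finset.univ : Finset (DirichletCharacter ℂ q)).card = Nat.totient q := by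
  rw [Finset.card_univ, ← Nat.card_eq_fintype_card,
    DirichletCharacter.card_eq_totient_of_hasEnoughRootsOfUnity ℂ q]

/-- final form: averages over all characters modulo `q`, and two thirds of all characters -/
theorem cyc_all : ∃ C0 : ℝ, 1 ≤ C0 ∧ ∀ (q : ℕ) [NeZero q] (T : ℝ),
      C0 * (1 + Real.sqrt (Real.log q)) ≤ T →
      (0.6725 * ∑ χ : DirichletCharacter ℂ q, (NN (LP χ) T (2 * T) : ℝ) ≤
        ∑ χ : DirichletCharacter ℂ q, (Ns (LP χ) T (2 * T) : ℝ)) ∧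
      (0.83625 * ∑ χ : DirichletCharacter ℂ q, (NN (LP χ) T (2 * T) : ℝ) ≤
        ∑ χ : DirichletCharacter ℂ q, (Nd (LP χ) T (2 * T) : ℝ)) ∧
      (0.99 * (T / (2 * Real.pi) * Real.log (q * T)) * (Nat.totient q : ℝ) ≤
        ∑ χ : DirichletCharacter ℂ q, (NN (LP χ) T (2 * T) : ℝ)) ∧
      (∀ S : Finset (DirichletCharacter ℂ q), (Nat.totient q : ℝ) ≤ 3 * (S.card : ℝ) →
        (∃ χ ∈ S, T * Real.log (q * T) / 120 ≤ (Ns (LP χ) T (2 * T) : ℝ)) ∧
        (∃ χ ∈ S, T * Real.log (q * T) / 13 ≤ (Nd (LP χ) T (2 * T) : ℝ))) := by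
  obtain ⟨Ca, hCa, ha⟩ := cyc_gen 1.414 1 1.3275 (by norm_num) (by linarith [Real.pi_gt_three])
    one_pos le_rfl (by rw [div_one]; exact Rw_const_d2)
  obtain ⟨Cb, hCb, hb⟩ := cyc_gen (11 / 5) (1 / 3) 1.945 (by norm_num)
    (by linarith [Real.pi_gt_three]) (by norm_num) (by norm_num) Rw_const_third
  refine ⟨max Ca Cb, le_max_of_le_left hCa, ?_⟩
  intro q _ T hT
  have hsq := Real.sqrt_nonneg (Real.log q)
  have hTa : Ca * (1 + Real.sqrt (Real.log q)) ≤ T :=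
    (mul_le_mul_of_nonneg_right (le_max_left _ _) (by linarith)).trans hT
  have hTb : Cb * (1 + Real.sqrt (Real.log q)) ≤ T :=
    (mul_le_mul_of_nonneg_right (le_max_right _ _) (by linarith)).trans hT
  have hφ0 : (0 : ℝ) < Nat.totient q := by
    exact_mod_cast Nat.totient_pos.mpr (NeZero.one_le : 1 ≤ q)
  obtain ⟨a1, a2, a3⟩ := ha q T Finset.univ hTa (by rw [card_univ_chars, one_mul])
  rw [card_univ_chars] at a3
  refine ⟨by norm_num at a1 ⊢; exact a1, by norm_num at a2 ⊢; exact a2, a3, ?_⟩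
  intro S hS
  obtain ⟨b1, b2, b3⟩ := hb q T S hTb (by linarith)
  have hSc : (0 : ℝ) < (S.card : ℝ) := by linarith
  have hSne : S.Nonempty := by
    rw [← Finset.card_pos]
    exact_mod_cast hSc
  have hqr : (1 : ℝ) ≤ q := by exact_mod_cast (NeZero.one_le : 1 ≤ q)
  have hT1 : 1 ≤ T := by
    refine le_trans ?_ hTa
    calc (1 : ℝ) = 1 * 1 := by norm_num
      _ ≤ Ca * (1 + Real.sqrt (Real.log q)) := mul_le_mul hCa (by linarith) zero_le_one (by linarith)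
  have hl : 0 ≤ Real.log (q * T) := Real.log_nonneg (one_le_mul_of_one_le_of_one_le hqr hT1)
  set X : ℝ := T * Real.log (q * T) with hX
  have hX0 : 0 ≤ X := by positivity
  have hπ := Real.pi_pos
  have hpi : 0.1591 ≤ 1 / (2 * Real.pi) := by
    rw [le_div_iff₀ (by positivity)]
    have := Real.pi_lt_d4
    norm_num at this ⊢
    linarith
  have e1 : T / (2 * Real.pi) * Real.log (q * T) = X * (1 / (2 * Real.pi)) := by
    rw [hX]; ring
  have hXπ : X * 0.1591 ≤ X * (1 / (2 * Real.pi)) := mul_le_mul_of_nonneg_left hpi hX0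
  have hlow : 0.1575 * X * (S.card : ℝ) ≤ ∑ χ ∈ S, (NN (LP χ) T (2 * T) : ℝ) := by
    refine le_trans ?_ b3
    refine mul_le_mul_of_nonneg_right ?_ hSc.le
    rw [e1]
    norm_num at hXπ ⊢
    linarith
  constructor
  · by_contra hcon
    push Not at hcon
    have h1 : ∑ χ ∈ S, (Ns (LP χ) T (2 * T) : ℝ) < ∑ _χ ∈ S, X / 120 :=
      Finset.sum_lt_sum_of_nonempty hSne hcon
    rw [Finset.sum_const, nsmul_eq_mul] at h1
    have h2 : (2 - 1.945) * (0.1575 * X * (S.card : ℝ)) ≤ (S.card : ℝ) * (X / 120) :=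
      ((mul_le_mul_of_nonneg_left hlow (by norm_num)).trans b1).trans h1.le
    have h3 : ∑ χ ∈ S, (Ns (LP χ) T (2 * T) : ℝ) < (S.card : ℝ) * (X / 120) := h1
    have h4 : (2 - 1.945) * (0.1575 * X * (S.card : ℝ)) < (S.card : ℝ) * (X / 120) :=
      ((mul_le_mul_of_nonneg_left hlow (by norm_num)).trans b1).trans_lt h1
    have h5 : 0 ≤ X * (S.card : ℝ) := by positivity
    norm_num at h4
    nlinarith
  · by_contra hcon
    push Not at hcon
    have h1 : ∑ χ ∈ S, (Nd (LP χ) T (2 * T) : ℝ) < ∑ _χ ∈ S, X / 13 :=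
      Finset.sum_lt_sum_of_nonempty hSne hcon
    rw [Finset.sum_const, nsmul_eq_mul] at h1
    have h4 : (3 - 1.945) / 2 * (0.1575 * X * (S.card : ℝ)) < (S.card : ℝ) * (X / 13) :=
      ((mul_le_mul_of_nonneg_left hlow (by norm_num)).trans b2).trans_lt h1
    have h5 : 0 ≤ X * (S.card : ℝ) := by positivity
    norm_num at h4
    nlinarith

end Pool.Agent.TH243.CYC
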